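import Pool.Agent.Lib.MP_2b7562_ag.Main

open Pool.Agent.Lib.MP_2b7562_ag

/-- Column stabilization of the algebraic boundary of the matrices of nonnegative rank at most `r`,
for every `r`: there is `n₀` such that, whenever the number `n + 1` of columns is at least `n₀`,
every matrix on the algebraic boundary has a column whose deletion leaves a matrix on the
algebraic boundary. -/
theorem Pool.Agent.Results.MP_2b7562_ag.ColumnStabilization.result :
    ∀ r : ℕ, ∃ n₀ : ℕ, ∀ n : ℕ, n₀ ≤ n + 1 → ∀ (m : ℕ) (M : Matrix (Fin m) (Fin (n + 1)) ℝ),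
      M ∈ algBoundary m (n + 1) r →
        ∃ i₀ : Fin (n + 1), M.submatrix id i₀.succAbove ∈ algBoundary m n r := by
  intro r
  refine ⟨2 ^ r * 3 ^ (r + r) + 1, fun n hn m M hM => ?_⟩
  exact stabilization (by omega) hM
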